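import Mathlib

set_option autoImplicit false

/-!
# Double counting: many `k`-subsets with a property that every `K`-subset contains
-/

namespace Pool.Agent.J4H70.MG

open Finset

theorem dc {α : Type*} [DecidableEq α] (F : Finset α) (K k : ℕ) (hK : K ≤ F.card)
    (P : Finset α → Prop) [DecidablePred P]
    (h : ∀ T ⊆ F, T.card = K → ∃ S ⊆ T, S.card = k ∧ P S) :
    F.card.choose k ≤ K.choose k * ((F.powersetCard k).filter P).card := by
  classical
  have hkK : k ≤ K := by
    obtain ⟨T, hT1, hT2⟩ := exists_subset_card_eq hK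
    obtain ⟨S, hS1, hS2, -⟩ := h T hT1 hT2
    rw [← hS2, ← hT2]
    exact card_le_card hS1
  set G := (F.powersetCard k).filter P with hG
  have h1 : F.card.choose K ≤ G.card * (F.card - k).choose (K - k) := by
    rw [← card_powersetCard]
    have hsub : F.powersetCard K ⊆
        G.biUnion (fun S => (F.powersetCard K).filter (fun T => S ⊆ T)) := by
      intro T hT
      have hT' := mem_powersetCard.1 hT
      obtain ⟨S, hS1, hS2, hS3⟩ := h T hT'.1 hT'.2
      rw [mem_biUnion]
      exact ⟨S, mem_filter.2 ⟨mem_powersetCard.2 ⟨hS1.trans hT'.1, hS2⟩, hS3⟩,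
        mem_filter.2 ⟨hT, hS1⟩⟩
    refine (card_le_card hsub).trans (card_biUnion_le.trans ?_)
    rw [← smul_eq_mul]
    refine sum_le_card_nsmul _ _ _ ?_
    intro S hS
    obtain ⟨hS1, -⟩ := mem_filter.1 hS
    obtain ⟨hS2, hS3⟩ := mem_powersetCard.1 hS1
    have h2 : ((F.powersetCard K).filter (fun T => S ⊆ T)).card ≤
        ((F \ S).powersetCard (K - k)).card := by
      refine card_le_card_of_injOn (fun T => T \ S) ?_ ?_
      · intro T hT
        obtain ⟨hT1, hT2⟩ := mem_filter.1 hT
        obtain ⟨hT3, hT4⟩ := mem_powersetCard.1 hT1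
        rw [mem_coe, mem_powersetCard]
        refine ⟨sdiff_subset_sdiff hT3 subset_rfl, ?_⟩
        rw [card_sdiff_of_subset hT2, hT4, hS3]
      · intro T hT T' hT' hTT
        obtain ⟨-, hT2⟩ := mem_filter.1 hT
        obtain ⟨-, hT2'⟩ := mem_filter.1 hT'
        have e1 : T \ S ∪ S = T := sdiff_union_of_subset hT2
        have e2 : T' \ S ∪ S = T' := sdiff_union_of_subset hT2'
        have hTT' : T \ S = T' \ S := hTT
        rw [← e1, ← e2, hTT']
    rw [card_powersetCard, card_sdiff_of_subset hS2, hS3] at h2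
    exact h2
  have h2 : 0 < (F.card - k).choose (K - k) := Nat.choose_pos (by omega)
  have h3 := Nat.choose_mul (n := F.card) hkK
  have h4 : F.card.choose k * (F.card - k).choose (K - k) ≤
      (K.choose k * G.card) * (F.card - k).choose (K - k) := by
    rw [← h3]
    calc F.card.choose K * K.choose k
        ≤ (G.card * (F.card - k).choose (K - k)) * K.choose k := Nat.mul_le_mul_right _ h1
      _ = _ := by ring
  exact Nat.le_of_mul_le_mul_right h4 h2

end Pool.Agent.J4H70.MG
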